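import Mathlib

set_option autoImplicit false

namespace Pool.Agent.H478R3.S8

/-- the seven non-base columns of the matroid `S_8` (six hot ones and a cold one) -/
def col : Fin 7 → Fin 4 → ZMod 2 :=
  ![![1,0,0,0], ![0,1,0,0], ![0,0,1,0], ![0,1,1,1], ![1,0,1,1], ![1,1,0,1], ![1,1,1,1]]

/-- the base point -/
def bas : Fin 4 → ZMod 2 := ![0,0,0,1]

def dot (u l : Fin 4 → ZMod 2) : ZMod 2 := u 0 * l 0 + u 1 * l 1 + u 2 * l 2 + u 3 * l 3

/-- the set `T` is (co)spanning in `S_8` -/
def g (c : Bool) (T : Fin 7 → Bool) : Prop :=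
  ∀ l : Fin 4 → ZMod 2, (∀ i, T i = true → dot (col i) l = 0) → (c = true → dot bas l = 0) → l = 0

instance (c : Bool) (T : Fin 7 → Bool) : Decidable (g c T) := by
  unfold g; infer_instance

/-- number of hot elements -/
def hot (T : Fin 7 → Bool) : ℕ :=
  (T 0).toNat + (T 1).toNat + (T 2).toNat + (T 3).toNat + (T 4).toNat + (T 5).toNat

def key (T : Fin 7 → Bool) : ℕ × Bool := (hot T, T 6)

def tab (c : Bool) (p : ℕ × Bool) : ℕ :=
  match c, p with
  | false, (3, true) => 8
  | false, (4, false) => 12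
  | false, (4, true) => 12
  | false, (5, _) => 6
  | false, (6, _) => 1
  | true, (2, true) => 12
  | true, (3, false) => 16
  | true, (3, true) => 20
  | true, (4, _) => 15
  | true, (5, _) => 6
  | true, (6, _) => 1
  | _, _ => 0

theorem count : ∀ (c : Bool), ∀ a ∈ Finset.range 7, ∀ b : Bool,
    (Finset.univ.filter (fun T : Fin 7 → Bool => g c T ∧ key T = (a, b))).card = tab c (a, b) := by
  decide +kernel

end Pool.Agent.H478R3.S8
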