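import Pool.Agent.H478R3.MatLink
import Pool.Agent.H478R3.S8Count

set_option autoImplicit false

namespace Pool.Agent.H478R3

open Classical

namespace Net

/-- a single element -/
noncomputable abbrev one : Net where
  L := ZMod 2
  ι := Unit
  ev := fun _ => LinearMap.id
  e := LinearMap.id

theorem sum_unit (inst : Fintype (Unit → Bool)) (f : (Unit → Bool) → ℂ) :
    @Finset.sum _ _ _ (@Finset.univ _ inst) f = f (fun _ => true) + f (fun _ => false) := by
  rw [Fintype.sum_equiv (Equiv.funUnique Unit Bool) f (fun b => f (fun _ => b))]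
  · rw [Fintype.sum_bool]
  · intro T
    congr 1

theorem one_W (v : ℂ) : one.W false v = v ∧ one.W true v = 1 + v := by
  have h1 : one.sp false (fun _ => true) := by
    intro l hl _
    exact hl () rfl
  have h2 : ¬ one.sp false (fun _ => false) := by
    intro h
    have h5 : (1 : ZMod 2) = 0 := h (1 : ZMod 2) (by simp) (by simp)
    exact one_ne_zero h5
  have h3 : one.sp true (fun _ => false) := by
    intro l _ hl
    exact hl rfl
  have h4 := one.sp_mono h1 true
  have hs : ∀ c, one.W c v = (if one.sp c (fun _ => true) then v else 0) +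
      (if one.sp c (fun _ => false) then 1 else 0) := by
    intro c
    unfold W
    refine (sum_unit _ _).trans ?_
    congr 1
    · congr 1
      unfold wt
      rw [Finset.prod_congr rfl (fun i _ => if_pos rfl), Finset.prod_const]
      have : (Finset.univ : Finset one.ι).card = 1 := Fintype.card_unit
      rw [this, pow_one]
    · congr 1
      unfold wt
      rw [Finset.prod_congr rfl (fun i _ => if_neg (by simp)), Finset.prod_const_one]
  rw [hs, hs, if_pos h1, if_neg h2, if_pos h4, if_pos h3]
  constructor <;> ring

theorem sum_two (inst : Fintype (Fin 2 → Bool)) (f : (Fin 2 → Bool) → ℂ) :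
    @Finset.sum _ _ _ (@Finset.univ _ inst) f =
    f ![true, true] + f ![true, false] + f ![false, true] + f ![false, false] := by
  rw [Fintype.sum_equiv (finTwoArrowEquiv Bool) f (fun p => f ![p.1, p.2])]
  · rw [Fintype.sum_prod_type]
    simp only [Fintype.sum_bool]
    ring
  · intro T
    congr 1
    funext i
    fin_cases i <;> rfl

/-- two elements in parallel (with the base point) -/
noncomputable abbrev par2 : Net where
  L := ZMod 2
  ι := Fin 2
  ev := fun _ => LinearMap.id
  e := LinearMap.id

theorem par2_sp_false (T : Fin 2 → Bool) : par2.sp false T ↔ ∃ k, T k = true := by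
  constructor
  · intro h
    by_contra hcon
    push Not at hcon
    have h5 : (1 : ZMod 2) = 0 := h (1 : ZMod 2) (fun i hi => absurd hi (hcon i)) (by simp)
    exact one_ne_zero h5
  · rintro ⟨k, hk⟩ l hl -
    exact hl k hk

theorem par2_sp_true (T : Fin 2 → Bool) : par2.sp true T := by
  intro l _ h
  exact h rfl

theorem exists_par (N1 N2 : Net) : ∃ N : Net, ∀ v, N.W true v = N1.W true v * N2.W true v ∧
    N.W true v - N.W false v = (N1.W true v - N1.W false v) * (N2.W true v - N2.W false v) := by
  refine ⟨comp par2 (fun k : Fin 2 => if k = 0 then N1 else N2), fun v => ?_⟩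
  have h1 : (comp par2 (fun k : Fin 2 => if k = 0 then N1 else N2)).W true v =
      N1.W true v * N2.W true v := by
    refine (comp_W _ _ _ _).trans ((sum_two _ _).trans ?_)
    rw [if_pos (par2_sp_true _), if_pos (par2_sp_true _), if_pos (par2_sp_true _),
      if_pos (par2_sp_true _)]
    have hp : ∀ F : Fin 2 → ℂ, (∏ k : par2.ι, F k) = F 0 * F 1 := fun F => Fin.prod_univ_two F
    rw [hp, hp, hp, hp]
    simp
    ring
  have h2 : (comp par2 (fun k : Fin 2 => if k = 0 then N1 else N2)).W false v =
      N1.W true v * N2.W true v - (N1.W true v - N1.W false v) * (N2.W true v - N2.W false v) := by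
    refine (comp_W _ _ _ _).trans ((sum_two _ _).trans ?_)
    rw [if_pos ((par2_sp_false _).2 ⟨0, rfl⟩), if_pos ((par2_sp_false _).2 ⟨0, rfl⟩),
      if_pos ((par2_sp_false _).2 ⟨1, rfl⟩), if_neg]
    · have hp : ∀ F : Fin 2 → ℂ, (∏ k : par2.ι, F k) = F 0 * F 1 := fun F => Fin.prod_univ_two F
      rw [hp, hp, hp]
      simp
      ring
    · rw [par2_sp_false]
      rintro ⟨k, hk⟩
      fin_cases k <;> simp at hk
  rw [h1, h2]
  constructor <;> ring

/-- two elements in series (with the base point) -/
noncomputable abbrev ser2 : Net where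
  L := ZMod 2 × ZMod 2
  ι := Fin 2
  ev := fun k => if k = 0 then LinearMap.fst _ _ _ else LinearMap.snd _ _ _
  e := LinearMap.fst _ _ _ + LinearMap.snd _ _ _

theorem ser2_sp (c : Bool) (T : Fin 2 → Bool) : ser2.sp c T ↔
    ∀ l : ZMod 2 × ZMod 2, (T 0 = true → l.1 = 0) → (T 1 = true → l.2 = 0) →
      (c = true → l.1 + l.2 = 0) → l = 0 := by
  constructor
  · intro h l h0 h1 hc
    apply h l
    · intro i hi
      change Fin 2 at i
      fin_cases i
      · exact h0 hi
      · exact h1 hi
    · exact hc
  · intro h l hl hc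
    apply h l
    · intro h0
      exact hl (0 : Fin 2) h0
    · intro h0
      exact hl (1 : Fin 2) h0
    · exact hc

theorem exists_ser (N1 N2 : Net) : ∃ N : Net, ∀ v, N.W false v = N1.W false v * N2.W false v ∧
    N.W true v - N.W false v = (N1.W true v - N1.W false v) * N2.W false v +
      N1.W false v * (N2.W true v - N2.W false v) := by
  refine ⟨comp ser2 (fun k : Fin 2 => if k = 0 then N1 else N2), fun v => ?_⟩
  have hp : ∀ F : Fin 2 → ℂ, (∏ k : ser2.ι, F k) = F 0 * F 1 := fun F => Fin.prod_univ_two F
  have h1 : (comp ser2 (fun k : Fin 2 => if k = 0 then N1 else N2)).W true v =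
      N1.W false v * N2.W false v + (N1.W true v - N1.W false v) * N2.W false v +
      N1.W false v * (N2.W true v - N2.W false v) := by
    refine (comp_W _ _ _ _).trans ((sum_two _ _).trans ?_)
    rw [if_pos ((ser2_sp _ _).2 (by decide)), if_pos ((ser2_sp _ _).2 (by decide)),
      if_pos ((ser2_sp _ _).2 (by decide)), if_neg (fun h => absurd ((ser2_sp _ _).1 h) (by decide))]
    rw [hp, hp, hp]
    simp
    ring
  have h2 : (comp ser2 (fun k : Fin 2 => if k = 0 then N1 else N2)).W false v =
      N1.W false v * N2.W false v := by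
    refine (comp_W _ _ _ _).trans ((sum_two _ _).trans ?_)
    rw [if_pos ((ser2_sp _ _).2 (by decide)),
      if_neg (fun h => absurd ((ser2_sp _ _).1 h) (by decide)),
      if_neg (fun h => absurd ((ser2_sp _ _).1 h) (by decide)),
      if_neg (fun h => absurd ((ser2_sp _ _).1 h) (by decide))]
    rw [hp]
    simp
  rw [h1, h2]
  constructor <;> ring

/-- the matroid `S_8` with a base point -/
noncomputable abbrev s8 : Net where
  L := Fin 4 → ZMod 2
  ι := Fin 7
  ev := fun k => S8.col k 0 • LinearMap.proj 0 + S8.col k 1 • LinearMap.proj 1 +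
    S8.col k 2 • LinearMap.proj 2 + S8.col k 3 • LinearMap.proj 3
  e := S8.bas 0 • LinearMap.proj 0 + S8.bas 1 • LinearMap.proj 1 +
    S8.bas 2 • LinearMap.proj 2 + S8.bas 3 • LinearMap.proj 3

theorem s8_sp (c : Bool) (T : Fin 7 → Bool) : s8.sp c T ↔ S8.g c T := Iff.rfl

theorem s8_sum (inst : Fintype (Fin 7 → Bool)) (c : Bool) (A B A' B' : ℂ) :
    @Finset.sum _ _ _ (@Finset.univ _ inst) (fun T : Fin 7 → Bool => if S8.g c T then
      (∏ k, if T k = true then (if k = 6 then A' else A) else (if k = 6 then B' else B)) else 0) =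
    ∑ a ∈ Finset.range 7, ∑ b : Bool, (S8.tab c (a, b) : ℂ) *
      (A ^ a * B ^ (6 - a) * (if b = true then A' else B')) := by
  have hinst : inst = (@Pi.instFintype (Fin 7) (fun _ => Bool) _ _ _) := Subsingleton.elim _ _
  subst hinst
  rw [← Finset.sum_filter]
  have h1 : ∀ T : Fin 7 → Bool,
      (∏ k, if T k = true then (if k = 6 then A' else A) else (if k = 6 then B' else B)) =
      A ^ (S8.key T).1 * B ^ (6 - (S8.key T).1) * (if (S8.key T).2 = true then A' else B') := by
    intro T
    rw [Fin.prod_univ_seven]
    unfold S8.key S8.hot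
    simp only [show ((0 : Fin 7) = 6) = False by decide, show ((1 : Fin 7) = 6) = False by decide,
      show ((2 : Fin 7) = 6) = False by decide, show ((3 : Fin 7) = 6) = False by decide,
      show ((4 : Fin 7) = 6) = False by decide, show ((5 : Fin 7) = 6) = False by decide, if_false, if_true]
    rcases T 0 <;> rcases T 1 <;> rcases T 2 <;> rcases T 3 <;> rcases T 4 <;> rcases T 5 <;>
      simp only [Bool.toNat_true, Bool.toNat_false, Nat.reduceAdd, Nat.reduceSub, if_true,
        if_false, Bool.false_eq_true] <;> ring
  rw [Finset.sum_congr rfl (fun T _ => h1 T)]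
  have h2 : ∀ T ∈ (Finset.univ.filter (fun T : Fin 7 → Bool => S8.g c T)),
      S8.key T ∈ (Finset.range 7 ×ˢ (Finset.univ : Finset Bool)) := by
    intro T _
    simp only [Finset.mem_product, Finset.mem_range, Finset.mem_univ, and_true]
    unfold S8.key S8.hot
    simp only
    have : ∀ b : Bool, b.toNat ≤ 1 := Bool.toNat_le
    have h0 := this (T 0)
    have h1 := this (T 1)
    have h2 := this (T 2)
    have h3 := this (T 3)
    have h4 := this (T 4)
    have h5 := this (T 5)
    omega
  rw [← Finset.sum_fiberwise_of_maps_to h2, Finset.sum_product]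
  apply Finset.sum_congr rfl
  intro a ha
  apply Finset.sum_congr rfl
  intro b _
  rw [Finset.sum_congr rfl (g := fun _ => A ^ a * B ^ (6 - a) * (if b = true then A' else B'))]
  · rw [Finset.sum_const, nsmul_eq_mul, Finset.filter_filter]
    congr 2
    rw [← S8.count c a ha b]
  · intro T hT
    rw [(Finset.mem_filter.1 hT).2]

theorem exists_s8 (H C : Net) : ∃ N : Net, ∀ v,
    N.W false v = (H.W false v) ^ 3 * (8 * (H.W true v - H.W false v) ^ 3 * C.W false v
      + 12 * H.W false v * (H.W true v - H.W false v) ^ 2 * (C.W true v - C.W false v)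
      + 12 * H.W false v * (H.W true v - H.W false v) ^ 2 * C.W false v
      + 6 * (H.W false v) ^ 2 * (H.W true v - H.W false v) * (C.W true v - C.W false v)
      + 6 * (H.W false v) ^ 2 * (H.W true v - H.W false v) * C.W false v
      + (H.W false v) ^ 3 * (C.W true v - C.W false v)
      + (H.W false v) ^ 3 * C.W false v) ∧
    N.W true v - N.W false v = (H.W false v) ^ 2 * (12 * (H.W true v - H.W false v) ^ 4 * C.W false v
      + 16 * H.W false v * (H.W true v - H.W false v) ^ 3 * (C.W true v - C.W false v)
      + 12 * H.W false v * (H.W true v - H.W false v) ^ 3 * C.W false v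
      + 3 * (H.W false v) ^ 2 * (H.W true v - H.W false v) ^ 2 * (C.W true v - C.W false v)
      + 3 * (H.W false v) ^ 2 * (H.W true v - H.W false v) ^ 2 * C.W false v) := by
  refine ⟨comp s8 (fun k : Fin 7 => if k = 6 then C else H), fun v => ?_⟩
  have key : ∀ c, (comp s8 (fun k : Fin 7 => if k = 6 then C else H)).W c v =
      ∑ a ∈ Finset.range 7, ∑ b : Bool, (S8.tab c (a, b) : ℂ) *
      ((H.W false v) ^ a * (H.W true v - H.W false v) ^ (6 - a) *
        (if b = true then C.W false v else C.W true v - C.W false v)) := by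
    intro c
    refine (comp_W _ _ _ _).trans ?_
    rw [← s8_sum (@Pi.instFintype s8.ι (fun _ => Bool) (fun a b => propDecidable (a = b)) s8.i4
      fun _ => Bool.fintype)]
    apply Finset.sum_congr rfl
    intro T _
    apply if_congr (s8_sp c T)
    · apply Fintype.prod_equiv (Equiv.refl _)
      intro k
      change Fin 7 at k
      simp only [Equiv.refl_apply]
      by_cases hk : k = 6
      · simp [hk]
      · simp [hk]
    · rfl
  rw [key false, key true]
  simp only [Finset.sum_range_succ, Finset.sum_range_zero, Fintype.sum_bool, S8.tab]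
  simp
  constructor <;> ring

end Net

end Pool.Agent.H478R3
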