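import Mathlib

set_option autoImplicit false

namespace Pool.Agent.H478R3.CA

open Complex Metric Set

theorem root_of_unity_near (U : Set ℂ) (hU : IsOpen U) (w : ℂ) (hw : w ∈ U) (h1 : ‖w‖ = 1) :
    ∃ z ∈ U, ∃ k : ℕ, 1 ≤ k ∧ z ^ k = 1 := by
  have hc : Continuous (fun x : ℝ => Complex.exp (2 * Real.pi * x * I)) := by fun_prop
  have hw' : Complex.exp (2 * Real.pi * ((arg w / (2 * Real.pi) : ℝ) : ℂ) * I) = w := by
    have h2 : (2 * Real.pi * ((arg w / (2 * Real.pi) : ℝ) : ℂ) : ℂ) = (arg w : ℂ) := by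
      push_cast
      field_simp
    rw [h2]
    have := Complex.norm_mul_exp_arg_mul_I w
    rwa [h1, ofReal_one, one_mul] at this
  have hopen : IsOpen ((fun x : ℝ => Complex.exp (2 * Real.pi * x * I)) ⁻¹' U) := hU.preimage hc
  obtain ⟨q, hq⟩ := Rat.denseRange_cast.exists_mem_open hopen ⟨arg w / (2 * Real.pi), by
    simp only [mem_preimage]
    rw [hw']
    exact hw⟩
  refine ⟨_, hq, q.den, q.pos, ?_⟩
  rw [← Complex.exp_nat_mul]
  have h3 : (q.den : ℂ) * (2 * Real.pi * ((q : ℝ) : ℂ) * I) = (q.num : ℂ) * (2 * Real.pi * I) := by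
    have h4 : ((q : ℝ) : ℂ) * (q.den : ℂ) = (q.num : ℂ) := by
      have := Rat.mul_den_eq_num q
      exact_mod_cast this
    rw [← h4]
    ring
  rw [h3]
  exact Complex.exp_int_mul_two_pi_mul_I q.num

theorem norm_gt_one {c : ℂ} {r : ℝ} (f : ℂ → ℂ) (hf : DifferentiableOn ℂ f (ball c r))
    (hk : ∀ z ∈ ball c r, ∀ k : ℕ, 1 ≤ k → f z ^ k ≠ 1)
    (h0 : ∃ z ∈ ball c r, 1 < ‖f z‖) : ∀ z ∈ ball c r, 1 < ‖f z‖ := by
  obtain ⟨z0, hz0, h0⟩ := h0
  have han : AnalyticOnNhd ℂ f (ball c r) := hf.analyticOnNhd isOpen_ball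
  have hpre : IsPreconnected (ball c r) := (convex_ball c r).isPreconnected
  rcases han.is_constant_or_isOpen hpre with ⟨w, hw⟩ | hopen
  · intro z hz
    rw [hw z hz, ← hw z0 hz0]
    exact h0
  · intro z hz
    by_contra hcon
    push Not at hcon
    have hcont : ContinuousOn (fun x => ‖f x‖) (ball c r) := hf.continuousOn.norm
    have := hpre.intermediate_value hz hz0 hcont ⟨hcon, h0.le⟩
    obtain ⟨x, hx, hx1⟩ := this
    obtain ⟨y, ⟨x', hx', rfl⟩, k, hk1, hk2⟩ := root_of_unity_near (f '' (ball c r))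
      (hopen _ subset_rfl isOpen_ball) (f x) ⟨x, hx, rfl⟩ hx1
    exact hk x' hx' k hk1 hk2

theorem schwarz_bound (g : ℂ → ℂ) (v0 : ℂ) (ρ : ℝ) (hρ : 0 < ρ)
    (hg : DifferentiableOn ℂ g (ball v0 ρ)) (hre : ∀ z ∈ ball v0 ρ, 0 < (g z).re)
    (him : (g v0).im = 0) (v1 : ℂ) (h1 : dist v1 v0 ≤ ρ / 4) :
    |(g v1).im| ≤ 8 / 15 * (g v1).re := by
  have hv0 : v0 ∈ ball v0 ρ := mem_ball_self hρ
  have hv1 : v1 ∈ ball v0 ρ := by
    rw [mem_ball]
    linarith
  set p := (g v0).re with hp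
  have hp0 : 0 < p := hre v0 hv0
  have hg0 : g v0 = (p : ℂ) := by
    apply Complex.ext
    · simp [hp]
    · simp [him]
  have hden : ∀ z ∈ ball v0 ρ, g z + p ≠ 0 := by
    intro z hz h
    have h2 := congrArg Complex.re h
    simp at h2
    have := hre z hz
    linarith
  have hG : DifferentiableOn ℂ (fun z => (g z - p) / (g z + p)) (ball v0 ρ) := by
    apply DifferentiableOn.div
    · exact hg.sub_const _
    · exact hg.add_const _
    · exact hden
  have hlt : ∀ z ∈ ball v0 ρ, ‖(g z - p) / (g z + p)‖ < 1 := by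
    intro z hz
    rw [norm_div, div_lt_one (norm_pos_iff.2 (hden z hz))]
    have h3 := hre z hz
    rw [← sq_lt_sq₀ (norm_nonneg _) (norm_nonneg _), ← Complex.normSq_eq_norm_sq,
      ← Complex.normSq_eq_norm_sq, Complex.normSq_apply, Complex.normSq_apply]
    simp
    nlinarith
  have hG0 : (g v0 - p) / (g v0 + p) = 0 := by
    rw [hg0, sub_self, zero_div]
  have hmaps : MapsTo (fun z => (g z - p) / (g z + p)) (ball v0 ρ)
      (closedBall ((g v0 - p) / (g v0 + p)) 1) := by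
    intro z hz
    rw [hG0, mem_closedBall_zero_iff]
    exact (hlt z hz).le
  have hS := Complex.dist_le_div_mul_dist_of_mapsTo_ball hG hmaps hv1
  simp only [hG0] at hS
  rw [dist_zero_right, norm_div] at hS
  have h4 : 1 / ρ * dist v1 v0 ≤ 1 / 4 := by
    rw [div_mul_eq_mul_div, one_mul, div_le_iff₀ hρ]
    linarith
  have h5 := hS.trans h4
  rw [div_le_iff₀ (norm_pos_iff.2 (hden v1 hv1))] at h5
  have h6 : ‖g v1 - p‖ ^ 2 ≤ (1 / 4 * ‖g v1 + p‖) ^ 2 :=
    pow_le_pow_left₀ (norm_nonneg _) h5 2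
  rw [mul_pow, ← Complex.normSq_eq_norm_sq, ← Complex.normSq_eq_norm_sq, Complex.normSq_apply,
    Complex.normSq_apply] at h6
  simp at h6
  have hx := hre v1 hv1
  apply abs_le_of_sq_le_sq _ (by positivity)
  nlinarith [sq_nonneg (p - 17 / 15 * (g v1).re)]

end Pool.Agent.H478R3.CA
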