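import Mathlib

set_option autoImplicit false

namespace Pool.Agent.H478R3.Slope

/-- the amplification of the slope -/
theorem amp (x t m m' : ℝ) (hx : 0 < x) (ht1 : 1 ≤ t) (ht2 : t ≤ 2) (hm : |m| ≤ 8 / 15)
    (hm' : |m'| ≤ 8 / 15) (hmm : m' < m) (H C : ℂ) (hH : H = ⟨x, x * m⟩)
    (hC : C = ⟨x * t, x * t * m'⟩) :
    12 * C + 16 * H ≠ 0 ∧
    (m + (m - m') / 100) * (H * (8 * C + 12 * H) / (12 * C + 16 * H)).re <
      (H * (8 * C + 12 * H) / (12 * C + 16 * H)).im := by
  obtain ⟨hm1, hm2⟩ := abs_le.1 hm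
  obtain ⟨hm1', hm2'⟩ := abs_le.1 hm'
  have hne : 12 * C + 16 * H ≠ 0 := by
    intro h0
    have h1 := congrArg Complex.re h0
    rw [hC, hH] at h1
    simp at h1
    nlinarith
  refine ⟨hne, ?_⟩
  set Z := 12 * C + 16 * H with hZ
  have hn : 0 < Complex.normSq Z := Complex.normSq_pos.2 hne
  rw [Complex.div_re, Complex.div_im]
  have hZre : Z.re = x * (12 * t + 16) := by
    rw [hZ, hC, hH]; simp; ring
  have hZim : Z.im = x * (12 * t * m' + 16 * m) := by
    rw [hZ, hC, hH]; simp; ring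
  set Y := H * (8 * C + 12 * H) with hY
  have hYre : Y.re = x ^ 2 * ((8 * t + 12) - m * (8 * t * m' + 12 * m)) := by
    rw [hY, hC, hH]; simp; ring
  have hYim : Y.im = x ^ 2 * ((8 * t * m' + 12 * m) + m * (8 * t + 12)) := by
    rw [hY, hC, hH]; simp; ring
  have key : (m + (m - m') / 100) * (Y.re * Z.re + Y.im * Z.im) < Y.im * Z.re - Y.re * Z.im := by
    rw [hZre, hZim, hYre, hYim]
    have h1 : 0 < x ^ 3 := by positivity
    set R1 := (8 * t + 12) * (12 * t + 16) + (8 * t * m' + 12 * m) * (12 * t * m' + 16 * m) with hR1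
    have hR2 : (8 * t * m' + 12 * m) * (12 * t + 16) - (8 * t + 12) * (12 * t * m' + 16 * m) =
      16 * t * (m - m') := by ring
    have e1 : x ^ 2 * ((8 * t + 12) - m * (8 * t * m' + 12 * m)) * (x * (12 * t + 16)) +
        x ^ 2 * ((8 * t * m' + 12 * m) + m * (8 * t + 12)) * (x * (12 * t * m' + 16 * m)) =
        x ^ 3 * (R1 - m * (16 * t * (m - m'))) := by
      rw [hR1]; ring
    have e2 : x ^ 2 * ((8 * t * m' + 12 * m) + m * (8 * t + 12)) * (x * (12 * t + 16)) -
        x ^ 2 * ((8 * t + 12) - m * (8 * t * m' + 12 * m)) * (x * (12 * t * m' + 16 * m)) =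
        x ^ 3 * (m * R1 + 16 * t * (m - m')) := by
      rw [hR1]; ring
    rw [e1, e2]
    have hd : 0 < m - m' := by linarith
    have hR1b : R1 ≤ 1440 := by
      have ha : |8 * t * m' + 12 * m| ≤ 28 * (8 / 15) := by
        rw [abs_le]; constructor <;> nlinarith
      have hb : |12 * t * m' + 16 * m| ≤ 40 * (8 / 15) := by
        rw [abs_le]; constructor <;> nlinarith
      have hc : (8 * t * m' + 12 * m) * (12 * t * m' + 16 * m) ≤ 28 * (8 / 15) * (40 * (8 / 15)) := by
        refine (le_abs_self _).trans ?_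
        rw [abs_mul]
        exact mul_le_mul ha hb (abs_nonneg _) (by norm_num)
      have hd' : (8 * t + 12) * (12 * t + 16) ≤ 28 * 40 := by nlinarith
      rw [hR1]
      linarith
    have hlast : (m + (m - m') / 100) * (R1 - m * (16 * t * (m - m'))) <
        m * R1 + 16 * t * (m - m') := by
      have e3 : m * R1 + 16 * t * (m - m') - (m + (m - m') / 100) * (R1 - m * (16 * t * (m - m'))) =
        (m - m') * (16 * t * (1 + m ^ 2) - (R1 - m * (16 * t * (m - m'))) / 100) := by ring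
      have h5 : 0 < 16 * t * (1 + m ^ 2) - (R1 - m * (16 * t * (m - m'))) / 100 := by
        have h6 : |m * (16 * t * (m - m'))| ≤ (8 / 15) * (32 * (16 / 15)) := by
          rw [abs_mul]
          apply mul_le_mul hm _ (abs_nonneg _) (by norm_num)
          rw [abs_of_pos (by positivity)]
          apply mul_le_mul _ _ hd.le (by norm_num)
          · linarith
          · linarith
        have h7 := (abs_le.1 h6).1
        have h8 : 16 ≤ 16 * t * (1 + m ^ 2) := by nlinarith [sq_nonneg m]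
        linarith
      have := mul_pos hd h5
      linarith
    calc (m + (m - m') / 100) * (x ^ 3 * (R1 - m * (16 * t * (m - m'))))
        = x ^ 3 * ((m + (m - m') / 100) * (R1 - m * (16 * t * (m - m')))) := by ring
      _ < x ^ 3 * (m * R1 + 16 * t * (m - m')) := mul_lt_mul_of_pos_left hlast h1
  have e4 : Y.re * Z.re / Complex.normSq Z + Y.im * Z.im / Complex.normSq Z =
      (Y.re * Z.re + Y.im * Z.im) / Complex.normSq Z := by ring
  have e5 : Y.im * Z.re / Complex.normSq Z - Y.re * Z.im / Complex.normSq Z =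
      (Y.im * Z.re - Y.re * Z.im) / Complex.normSq Z := by ring
  rw [e4, e5, mul_div_assoc']
  exact div_lt_div_of_pos_right key hn

/-- integer multiples of two positive reals can be brought within a factor two of each other -/
theorem balance (p q : ℝ) (hp : 0 < p) (hq : 0 < q) : ∃ a b : ℕ,
    1 ≤ ((b + 1 : ℕ) * q) / ((a + 1 : ℕ) * p) ∧ ((b + 1 : ℕ) * q) / ((a + 1 : ℕ) * p) ≤ 2 := by
  rcases le_total q p with h | h
  · have h1 : 0 < ⌈p / q⌉₊ := Nat.ceil_pos.2 (by positivity)
    refine ⟨0, ⌈p / q⌉₊ - 1, ?_⟩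
    rw [Nat.sub_add_cancel h1]
    have h2 : p / q ≤ ⌈p / q⌉₊ := Nat.le_ceil _
    have h3 : (⌈p / q⌉₊ : ℝ) < p / q + 1 := Nat.ceil_lt_add_one (by positivity)
    rw [div_le_iff₀ hq] at h2
    have h4 : (⌈p / q⌉₊ : ℝ) * q < p + q := by
      have := mul_lt_mul_of_pos_right h3 hq
      rwa [add_mul, div_mul_cancel₀ _ hq.ne', one_mul] at this
    constructor
    · rw [le_div_iff₀ (by positivity)]
      simpa using h2
    · rw [div_le_iff₀ (by positivity)]
      simp only [zero_add, Nat.cast_one, one_mul]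
      linarith
  · have h0 : 1 ≤ q / p := by rw [le_div_iff₀ hp]; linarith
    have h1 : 0 < ⌊q / p⌋₊ := Nat.floor_pos.2 h0
    refine ⟨⌊q / p⌋₊ - 1, 0, ?_⟩
    rw [Nat.sub_add_cancel h1]
    have h2 : (⌊q / p⌋₊ : ℝ) ≤ q / p := Nat.floor_le (by positivity)
    have h3 : q / p < ⌊q / p⌋₊ + 1 := Nat.lt_floor_add_one _
    rw [le_div_iff₀ hp] at h2
    rw [div_lt_iff₀ hp] at h3
    have h4 : (1 : ℝ) ≤ ⌊q / p⌋₊ := by exact_mod_cast h1
    have h5 : (0 : ℝ) < ⌊q / p⌋₊ * p := by positivity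
    constructor
    · rw [le_div_iff₀ h5]
      simpa using h2
    · rw [div_le_iff₀ h5]
      simp only [zero_add, Nat.cast_one, one_mul]
      nlinarith

end Pool.Agent.H478R3.Slope
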