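import Pool.Agent.H478R3.Limit
import Pool.Agent.H478R3.Slope

set_option autoImplicit false

namespace Pool.Agent.H478R3

open Classical Metric Filter Topology

namespace Net

/-- one amplification step -/
theorem step {ε : ℝ} (hε : 0 < ε) (hε2 : ε ≤ 1 / 2) (hyp : Hyp ε) (N N0 : Net) (hN : N.IsR)
    (hN0 : N0.IsR) (m m0 : ℝ) (hm : (lam N (tp ε)).im = (lam N (tp ε)).re * m)
    (hm0 : (lam N0 (tp ε)).im = (lam N0 (tp ε)).re * m0) (hlt : m0 < m) :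
    ∃ N' : Net, N'.IsR ∧
      (m + (m - m0) / 100) * (lam N' (tp ε)).re < (lam N' (tp ε)).im := by
  obtain ⟨hB, hA, hp⟩ := lam_props hε hε2 hyp N hN (tp ε) (tp_mem hε)
  obtain ⟨hB0, hA0, hq⟩ := lam_props hε hε2 hyp N0 hN0 (tp ε) (tp_mem hε)
  have hsm : |m| ≤ 8 / 15 := by
    have := slope_bound hε hε2 hyp N hN
    rw [hm, abs_mul, abs_of_pos hp, mul_comm] at this
    exact le_of_mul_le_mul_right this hp
  have hsm0 : |m0| ≤ 8 / 15 := by
    have := slope_bound hε hε2 hyp N0 hN0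
    rw [hm0, abs_mul, abs_of_pos hq, mul_comm] at this
    exact le_of_mul_le_mul_right this hq
  set h := lam N (tp ε) with hh
  set c := lam N0 (tp ε) with hc
  obtain ⟨a1, a2, ht1, ht2⟩ := Slope.balance h.re c.re hp hq
  set t := ((a2 + 1 : ℕ) * c.re) / ((a1 + 1 : ℕ) * h.re) with ht
  have hx : 0 < ((a1 + 1 : ℕ) : ℝ) * h.re := by positivity
  have hxt : ((a1 + 1 : ℕ) : ℝ) * h.re * t = (a2 + 1 : ℕ) * c.re := by
    rw [ht]; field_simp
  have hHeq : (((a1 + 1 : ℕ) : ℂ) * h) = ⟨((a1 + 1 : ℕ) : ℝ) * h.re, ((a1 + 1 : ℕ) : ℝ) * h.re * m⟩ := by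
    apply Complex.ext
    · simp
    · simp only [Complex.mul_im, Complex.natCast_re, Complex.natCast_im, zero_mul, add_zero]
      rw [hm]; ring
  have hCeq : (((a2 + 1 : ℕ) : ℂ) * c) = ⟨((a1 + 1 : ℕ) : ℝ) * h.re * t,
      ((a1 + 1 : ℕ) : ℝ) * h.re * t * m0⟩ := by
    rw [hxt]
    apply Complex.ext
    · simp
    · simp only [Complex.mul_im, Complex.natCast_re, Complex.natCast_im, zero_mul, add_zero]
      rw [hm0]; ring
  obtain ⟨hne, hamp⟩ := Slope.amp _ t m m0 hx ht1 ht2 hsm hsm0 hlt _ _ hHeq hCeq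
  have hHne : (((a1 + 1 : ℕ) : ℂ) * h) ≠ 0 := by
    intro h0
    rw [h0] at hHeq
    have := congrArg Complex.re hHeq
    simp only [Complex.zero_re] at this
    linarith
  have hlim := tendsto_out
    (fun b : ℕ => (1 - h / ((b : ℂ) + 1)) ^ (a1 + 1) - 1)
    (fun b : ℕ => (1 - c / ((b : ℂ) + 1)) ^ (a2 + 1) - 1) _ _
    (tendsto_T h (a1 + 1)) (tendsto_T c (a2 + 1)) hHne hne
  have hcont : Continuous (fun z : ℂ => z.im - (m + (m - m0) / 100) * z.re) :=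
    Complex.continuous_im.sub (continuous_const.mul Complex.continuous_re)
  have hev := (hcont.tendsto _).comp hlim
  have hpos : 0 < (((a1 + 1 : ℕ) : ℂ) * h * (8 * (((a2 + 1 : ℕ) : ℂ) * c) + 12 * (((a1 + 1 : ℕ) : ℂ) * h)) /
      (12 * (((a2 + 1 : ℕ) : ℂ) * c) + 16 * (((a1 + 1 : ℕ) : ℂ) * h))).im -
      (m + (m - m0) / 100) * (((a1 + 1 : ℕ) : ℂ) * h * (8 * (((a2 + 1 : ℕ) : ℂ) * c) + 12 * (((a1 + 1 : ℕ) : ℂ) * h)) /
      (12 * (((a2 + 1 : ℕ) : ℂ) * c) + 16 * (((a1 + 1 : ℕ) : ℂ) * h))).re := by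
    linarith
  obtain ⟨b, hb⟩ := (hev.eventually (lt_mem_nhds hpos)).exists
  obtain ⟨N1, hN1, hv1⟩ := exists_scaled N hN a1 b
  obtain ⟨N2, hN2, hv2⟩ := exists_scaled N0 hN0 a2 b
  obtain ⟨h1, h2⟩ := hv1 (tp ε) hB hA
  obtain ⟨h3, h4⟩ := hv2 (tp ε) hB0 hA0
  obtain ⟨N', hN', hv'⟩ := exists_s8' N1 N2 hN1 hN2
  obtain ⟨h5, h6⟩ := hv' (tp ε) h1 h3
  refine ⟨N', hN', ?_⟩
  rw [h2, h4] at h5 h6
  have h7 : lam N' (tp ε) = -(fA ℂ ((1 - h / ((b : ℂ) + 1)) ^ (a1 + 1) - 1)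
      ((1 - c / ((b : ℂ) + 1)) ^ (a2 + 1) - 1) / fB ℂ ((1 - h / ((b : ℂ) + 1)) ^ (a1 + 1) - 1)
      ((1 - c / ((b : ℂ) + 1)) ^ (a2 + 1) - 1)) := by
    have h8 : (N1.Bf (tp ε)) ^ 6 * N2.Bf (tp ε) ≠ 0 := mul_ne_zero (pow_ne_zero _ h1) h3
    rw [show lam N' (tp ε) = -(N'.W false (tp ε) / N'.Bf (tp ε)) from rfl, h5, h6,
      mul_div_mul_left _ _ h8]
  simp only [Function.comp_apply] at hb
  rw [← h7] at hb
  have h9 : ((b : ℂ) + 1) * lam N' (tp ε) = (((b : ℝ) + 1 : ℝ) : ℂ) * lam N' (tp ε) := by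
    push_cast; rfl
  rw [h9, Complex.re_ofReal_mul, Complex.im_ofReal_mul] at hb
  have hbpos : (0 : ℝ) < (b : ℝ) + 1 := by positivity
  by_contra hcon
  push Not at hcon
  have : ((b : ℝ) + 1) * (lam N' (tp ε)).im ≤
      ((b : ℝ) + 1) * ((m + (m - m0) / 100) * (lam N' (tp ε)).re) :=
    mul_le_mul_of_nonneg_left hcon hbpos.le
  linarith

theorem lam_one (ε : ℝ) : lam one (tp ε) = ⟨1 - ε / 2, -(ε / 8)⟩ := by
  unfold lam Bf
  rw [(one_W _).1, (one_W _).2]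
  apply Complex.ext
  · simp [tp]; ring
  · simp [tp]

theorem exists_start : ∃ N : Net, N.IsR ∧ ∀ ε : ℝ,
    lam N (tp ε) = ⟨1 - 15 * ε ^ 2 / 64, -(ε ^ 2 / 8)⟩ := by
  obtain ⟨N, hN, hv⟩ := exists_par' one one one_isR one_isR
  refine ⟨N, hN, fun ε => ?_⟩
  have h1 : N.Bf (tp ε) = 1 := by
    rw [(hv _).2]
    unfold Bf
    rw [(one_W _).1, (one_W _).2]
    ring
  have h2 : N.W false (tp ε) = (1 + tp ε) ^ 2 - 1 := by
    have : N.W false (tp ε) = N.W true (tp ε) - N.Bf (tp ε) := by unfold Bf; ring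
    rw [this, h1, (hv _).1, (one_W _).2]
    ring
  unfold lam
  rw [h1, h2, div_one]
  apply Complex.ext
  · simp [tp, pow_two]; ring
  · simp [tp, pow_two]; ring

theorem no_hyp {ε : ℝ} (hε : 0 < ε) (hε2 : ε ≤ 1 / 2) (hyp : Hyp ε) : False := by
  obtain ⟨N1, hN1, h1⟩ := exists_start
  have h1 := h1 ε
  have h0 := lam_one ε
  set m0 : ℝ := -(ε / 8) / (1 - ε / 2) with hm0
  set m1 : ℝ := -(ε ^ 2 / 8) / (1 - 15 * ε ^ 2 / 64) with hm1
  have hd0 : 0 < 1 - ε / 2 := by linarith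
  have hd1 : 0 < 1 - 15 * ε ^ 2 / 64 := by nlinarith
  have hlt : m0 < m1 := by
    rw [hm0, hm1, div_lt_div_iff₀ hd0 hd1]
    nlinarith
  have e0 : (lam one (tp ε)).im = (lam one (tp ε)).re * m0 := by
    rw [h0, hm0]
    exact (mul_div_cancel₀ _ hd0.ne').symm
  set δ := (m1 - m0) / 100 with hδ
  have hδpos : 0 < δ := by rw [hδ]; linarith
  have key : ∀ n : ℕ, ∃ N : Net, N.IsR ∧ (m1 + n * δ) * (lam N (tp ε)).re ≤ (lam N (tp ε)).im := by
    intro n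
    induction n with
    | zero =>
      refine ⟨N1, hN1, ?_⟩
      rw [h1, hm1]
      simp only [Nat.cast_zero, zero_mul, add_zero]
      rw [div_mul_cancel₀ _ hd1.ne']
    | succ n ih =>
      obtain ⟨N, hN, hv⟩ := ih
      obtain ⟨-, -, hp⟩ := lam_props hε hε2 hyp N hN (tp ε) (tp_mem hε)
      set m := (lam N (tp ε)).im / (lam N (tp ε)).re with hm
      have hm' : (lam N (tp ε)).im = (lam N (tp ε)).re * m := by
        rw [hm]; field_simp
      have hge : m1 + n * δ ≤ m := by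
        rw [hm, le_div_iff₀ hp]
        exact hv
      have hn : 0 ≤ (n : ℝ) * δ := by positivity
      have hlt' : m0 < m := by linarith
      obtain ⟨N', hN', hv'⟩ := step hε hε2 hyp N one hN one_isR m m0 hm' e0 hlt'
      refine ⟨N', hN', ?_⟩
      obtain ⟨-, -, hp'⟩ := lam_props hε hε2 hyp N' hN' (tp ε) (tp_mem hε)
      refine le_trans ?_ hv'.le
      apply mul_le_mul_of_nonneg_right _ hp'.le
      push_cast
      have : δ ≤ (m - m0) / 100 := by rw [hδ]; linarith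
      linarith
  obtain ⟨n, hn⟩ := exists_nat_gt ((8 / 15 - m1) / δ)
  obtain ⟨N, hN, hv⟩ := key n
  obtain ⟨-, -, hp⟩ := lam_props hε hε2 hyp N hN (tp ε) (tp_mem hε)
  have hs := (le_abs_self _).trans (slope_bound hε hε2 hyp N hN)
  rw [div_lt_iff₀ hδpos] at hn
  have h2 : (m1 + n * δ) * (lam N (tp ε)).re ≤ 8 / 15 * (lam N (tp ε)).re := hv.trans hs
  have h3 := le_of_mul_le_mul_right h2 hp
  linarith

theorem unbounded : ¬ (∃ C : ℝ, ∀ (n : ℕ) (M : Matroid (Fin n)), M.E = Set.univ →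
      ∀ z : ℂ,
        (∑ S : Finset (Fin n),
          (if M.Spanning (↑S : Set (Fin n)) then
            z ^ (Finset.card S) * (1 - z) ^ (n - Finset.card S) else 0)) = 0 →
        ‖z‖ ≤ C) := by
  rintro ⟨C, hC⟩
  have hpos : 0 < |C| + 2 := by positivity
  refine no_hyp (ε := 1 / (|C| + 2)) (by positivity) ?_ (hyp_of_bound C hC)
  rw [div_le_div_iff₀ hpos (by norm_num)]
  have := abs_nonneg C
  linarith

end Net

end Pool.Agent.H478R3
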