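import Pool.Agent.H478R3.RealNet

set_option autoImplicit false

namespace Pool.Agent.H478R3

open Classical Metric Filter Topology

namespace Net

/-- no generating function of spanning sets vanishes near `-1`, except at `-1` -/
def Hyp (ε : ℝ) : Prop := ∀ N : Net, (∃ v, N.W false v ≠ 0) → ∀ v : ℂ, 1 + v ≠ 0 → ‖1 + v‖ < ε →
  N.W false v ≠ 0

theorem hyp_of_bound (C : ℝ) (hC : ∀ (n : ℕ) (M : Matroid (Fin n)), M.E = Set.univ →
      ∀ z : ℂ,
        (∑ S : Finset (Fin n),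
          (if M.Spanning (↑S : Set (Fin n)) then
            z ^ (Finset.card S) * (1 - z) ^ (n - Finset.card S) else 0)) = 0 →
        ‖z‖ ≤ C) : Hyp (1 / (|C| + 2)) := by
  intro N hN v hv1 hv2 h0
  obtain ⟨n, M, hM, hsum⟩ := matroid N hN hv1 h0
  have h1 := hC n M hM _ hsum
  have hpos : 0 < |C| + 2 := by positivity
  have h2 : 0 < ‖1 + v‖ := norm_pos_iff.2 hv1
  rw [norm_div, div_le_iff₀ h2] at h1
  rw [lt_div_iff₀ hpos] at hv2
  have h3 : 1 ≤ ‖1 + v‖ + ‖v‖ := by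
    have := norm_sub_le (1 + v) v
    simpa using this
  have h4 : C * ‖1 + v‖ ≤ |C| * ‖1 + v‖ := mul_le_mul_of_nonneg_right (le_abs_self C) h2.le
  nlinarith

theorem differentiable_W (N : Net) (c : Bool) : Differentiable ℂ (N.W c) := by
  unfold W
  apply Differentiable.fun_sum
  intro S _
  by_cases h : N.sp c S
  · simp only [h, if_true]
    have : (fun v => wt S v) = fun v : ℂ => v ^ (Finset.univ.filter (fun x => S x = true)).card := by
      funext v
      exact wt_eq S v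
    rw [this]
    exact differentiable_pow _
  · simp only [h, if_false]
    exact differentiable_const _

theorem differentiable_Bf (N : Net) : Differentiable ℂ N.Bf :=
  (N.differentiable_W true).sub (N.differentiable_W false)

/-- minus the effective weight -/
noncomputable def lam (N : Net) (v : ℂ) : ℂ := -(N.W false v / N.Bf v)

/-- the centre -/
noncomputable def cen (ε : ℝ) : ℂ := ((-1 + ε / 2 : ℝ) : ℂ)

theorem mem_region {ε : ℝ} {v : ℂ} (hv : v ∈ ball (cen ε) (ε / 2)) :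
    1 + v ≠ 0 ∧ ‖1 + v‖ < ε := by
  rw [mem_ball, dist_eq_norm] at hv
  have h1 : v - cen ε = (1 + v) - ((ε / 2 : ℝ) : ℂ) := by
    unfold cen; push_cast; ring
  rw [h1] at hv
  constructor
  · intro h0
    rw [h0, zero_sub, norm_neg, Complex.norm_real, Real.norm_eq_abs] at hv
    exact absurd hv (not_lt.2 (le_abs_self _))
  · have h2 : ‖1 + v‖ ≤ ‖(1 + v) - ((ε / 2 : ℝ) : ℂ)‖ + ‖((ε / 2 : ℝ) : ℂ)‖ := by
      have := norm_add_le ((1 + v) - ((ε / 2 : ℝ) : ℂ)) ((ε / 2 : ℝ) : ℂ)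
      simpa using this
    have h3 : 0 < ε / 2 := lt_of_le_of_lt (norm_nonneg _) hv
    rw [Complex.norm_real, Real.norm_eq_abs, abs_of_pos h3] at h2
    linarith

theorem nonvanishing {ε : ℝ} (hε : 0 < ε) (hε2 : ε ≤ 1 / 2) (hyp : Hyp ε) (N : Net) (hN : N.IsR)
    {v : ℂ} (hv : v ∈ ball (cen ε) (ε / 2)) :
    N.W false v ≠ 0 ∧ N.W true v ≠ 0 ∧ ∀ k : ℕ, 1 ≤ k → (N.Bf v / N.W true v) ^ k ≠ 1 := by
  obtain ⟨h1, h2⟩ := mem_region hv
  have ht : -1 < -1 + ε / 2 := by linarith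
  have ht2 : -1 + ε / 2 < 0 := by linarith
  have hA : ∀ N : Net, N.IsR → N.W false v ≠ 0 := by
    intro N hN
    apply hyp N _ v h1 h2
    obtain ⟨b, r, hb, hr, hr', hB, hA⟩ := hN (-1 + ε / 2) ht ht2
    refine ⟨((-1 + ε / 2 : ℝ) : ℂ), ?_⟩
    rw [hA]
    exact_mod_cast mul_ne_zero hr'.ne hb
  have hD : ∀ N : Net, N.IsR → N.W true v ≠ 0 := by
    intro N hN
    rw [← con_W]
    apply hyp N.con _ v h1 h2
    obtain ⟨b, r, hb, hr, hr', hB, hA⟩ := hN (-1 + ε / 2) ht ht2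
    refine ⟨((-1 + ε / 2 : ℝ) : ℂ), ?_⟩
    rw [con_W]
    have : N.W true ((-1 + ε / 2 : ℝ) : ℂ) = N.Bf ((-1 + ε / 2 : ℝ) : ℂ) +
        N.W false ((-1 + ε / 2 : ℝ) : ℂ) := by unfold Bf; ring
    rw [this, hB, hA]
    have h3 : b + r * b ≠ 0 := by
      have : b + r * b = (1 + r) * b := by ring
      rw [this]
      exact mul_ne_zero (by linarith) hb
    exact_mod_cast h3
  refine ⟨hA N hN, hD N hN, ?_⟩
  intro k hk
  obtain ⟨k, rfl⟩ : ∃ j, k = j + 1 := ⟨k - 1, by omega⟩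
  obtain ⟨N', hN', hv'⟩ := exists_parPow N hN k
  have h3 := hA N' hN'
  intro hcon
  apply h3
  have h4 : N'.W false v = N'.W true v - N'.Bf v := by unfold Bf; ring
  rw [h4, (hv' v).1, (hv' v).2]
  rw [div_pow, div_eq_one_iff_eq (pow_ne_zero _ (hD N hN))] at hcon
  rw [hcon, sub_self]

theorem cen_mem {ε : ℝ} (hε : 0 < ε) : cen ε ∈ ball (cen ε) (ε / 2) := mem_ball_self (by linarith)

theorem norm_f_gt {ε : ℝ} (hε : 0 < ε) (hε2 : ε ≤ 1 / 2) (hyp : Hyp ε) (N : Net) (hN : N.IsR) :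
    ∀ v ∈ ball (cen ε) (ε / 2), 1 < ‖N.Bf v / N.W true v‖ := by
  apply CA.norm_gt_one
  · apply DifferentiableOn.div
    · exact N.differentiable_Bf.differentiableOn
    · exact (N.differentiable_W true).differentiableOn
    · intro v hv
      exact (nonvanishing hε hε2 hyp N hN hv).2.1
  · intro v hv
    exact (nonvanishing hε hε2 hyp N hN hv).2.2
  · refine ⟨cen ε, cen_mem hε, ?_⟩
    obtain ⟨b, r, hb, hr, hr', hB, hA⟩ := hN (-1 + ε / 2) (by linarith) (by linarith)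
    have h1 : N.W true (cen ε) = N.Bf (cen ε) + N.W false (cen ε) := by unfold Bf; ring
    rw [h1]
    unfold cen
    rw [hB, hA]
    have h2 : (b : ℂ) / ((b : ℂ) + ((r * b : ℝ) : ℂ)) = ((1 / (1 + r) : ℝ) : ℂ) := by
      have h3 : (b : ℂ) ≠ 0 := by exact_mod_cast hb
      have h4 : (1 + (r : ℂ)) ≠ 0 := by
        have : (1 + r : ℝ) ≠ 0 := by linarith
        exact_mod_cast this
      push_cast
      have h5 : (b : ℂ) + r * b = b * (1 + r) := by ring
      rw [h5]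
      field_simp
    rw [h2, Complex.norm_real, Real.norm_eq_abs, abs_of_pos (by apply div_pos one_pos; linarith)]
    rw [lt_div_iff₀ (by linarith)]
    linarith

theorem lam_props {ε : ℝ} (hε : 0 < ε) (hε2 : ε ≤ 1 / 2) (hyp : Hyp ε) (N : Net) (hN : N.IsR) :
    ∀ v ∈ ball (cen ε) (ε / 2), N.Bf v ≠ 0 ∧ N.W false v ≠ 0 ∧ 0 < (lam N v).re := by
  intro v hv
  have h1 := norm_f_gt hε hε2 hyp N hN v hv
  obtain ⟨h2, h3, -⟩ := nonvanishing hε hε2 hyp N hN hv
  have hB : N.Bf v ≠ 0 := by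
    intro h0
    rw [h0, zero_div, norm_zero] at h1
    linarith
  refine ⟨hB, h2, ?_⟩
  have h4 : lam N v = 1 - N.W true v / N.Bf v := by
    unfold lam
    have : N.W true v = N.Bf v + N.W false v := by unfold Bf; ring
    rw [this]
    field_simp
    ring
  rw [h4]
  have h5 : ‖N.W true v / N.Bf v‖ < 1 := by
    rw [norm_div] at h1 ⊢
    rw [one_lt_div (norm_pos_iff.2 h3)] at h1
    rw [div_lt_one (norm_pos_iff.2 hB)]
    exact h1
  have h6 := (Complex.abs_re_le_norm (N.W true v / N.Bf v)).trans_lt h5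
  rw [abs_lt] at h6
  rw [Complex.sub_re, Complex.one_re]
  linarith [h6.2]

/-- the nonreal test point -/
noncomputable def tp (ε : ℝ) : ℂ := ⟨-1 + ε / 2, ε / 8⟩

theorem tp_dist {ε : ℝ} (hε : 0 < ε) : dist (tp ε) (cen ε) ≤ (ε / 2) / 4 := by
  have h : tp ε - cen ε = ((ε / 8 : ℝ) : ℂ) * Complex.I := by
    apply Complex.ext <;> simp [tp, cen]
  rw [dist_eq_norm, h, norm_mul, Complex.norm_I, Complex.norm_real, Real.norm_eq_abs,
    abs_of_pos (by linarith)]
  linarith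

theorem tp_mem {ε : ℝ} (hε : 0 < ε) : tp ε ∈ ball (cen ε) (ε / 2) := by
  rw [mem_ball]
  have := tp_dist hε
  linarith

theorem slope_bound {ε : ℝ} (hε : 0 < ε) (hε2 : ε ≤ 1 / 2) (hyp : Hyp ε) (N : Net) (hN : N.IsR) :
    |(lam N (tp ε)).im| ≤ 8 / 15 * (lam N (tp ε)).re := by
  apply CA.schwarz_bound (lam N) (cen ε) (ε / 2) (by linarith)
  · unfold lam
    apply DifferentiableOn.neg
    apply DifferentiableOn.div
    · exact (N.differentiable_W false).differentiableOn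
    · exact N.differentiable_Bf.differentiableOn
    · intro v hv
      exact (lam_props hε hε2 hyp N hN v hv).1
  · intro v hv
    exact (lam_props hε hε2 hyp N hN v hv).2.2
  · obtain ⟨b, r, hb, hr, hr', hB, hA⟩ := hN (-1 + ε / 2) (by linarith) (by linarith)
    unfold lam cen
    rw [hB, hA, ← Complex.ofReal_div, ← Complex.ofReal_neg, Complex.ofReal_im]
  · exact tp_dist hε

theorem exists_scaled (N : Net) (hN : N.IsR) (a b : ℕ) : ∃ N' : Net, N'.IsR ∧
    ∀ v, N.Bf v ≠ 0 → N.W false v ≠ 0 → N'.Bf v ≠ 0 ∧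
      N'.W false v / N'.Bf v = (1 - lam N v / ((b : ℂ) + 1)) ^ (a + 1) - 1 := by
  obtain ⟨N1, hN1, h1⟩ := exists_serPow N hN b
  obtain ⟨N2, hN2, h2⟩ := exists_parPow N1 hN1 a
  refine ⟨N2, hN2, fun v hB hA => ?_⟩
  have hb : ((b : ℂ) + 1) ≠ 0 := by exact_mod_cast Nat.succ_ne_zero b
  have hB1 : N1.Bf v ≠ 0 := by
    rw [(h1 v).2]
    refine mul_ne_zero ?_ (mul_ne_zero hB (pow_ne_zero _ hA))
    exact_mod_cast Nat.succ_ne_zero b
  have hB2 : N2.Bf v ≠ 0 := by
    rw [(h2 v).2]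
    exact pow_ne_zero _ hB1
  refine ⟨hB2, ?_⟩
  have h3 : N2.W false v = N2.W true v - N2.Bf v := by unfold Bf; ring
  rw [h3, sub_div, div_self hB2, (h2 v).1, (h2 v).2, ← div_pow]
  congr 2
  have h4 : N1.W true v = N1.Bf v + N1.W false v := by unfold Bf; ring
  rw [h4, add_div, div_self hB1, (h1 v).1, (h1 v).2, pow_succ]
  unfold lam
  push_cast
  have hp : (N.W false v) ^ b ≠ 0 := pow_ne_zero _ hA
  field_simp
  ring

end Net

end Pool.Agent.H478R3
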