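import Pool.Agent.H478R3.Lam

set_option autoImplicit false

namespace Pool.Agent.H478R3

open Classical Metric Filter Topology

namespace Net

theorem tendsto_succ_inv (h : ℂ) : Tendsto (fun b : ℕ => h / ((b : ℂ) + 1)) atTop (𝓝 0) := by
  have h1 : Tendsto (fun b : ℕ => ((b : ℂ) + 1)⁻¹) atTop (𝓝 0) := by
    have := (tendsto_one_div_add_atTop_nhds_zero_nat (𝕜 := ℂ))
    simpa using this
  have h2 := h1.const_mul h
  simpa [div_eq_mul_inv] using h2

theorem tendsto_T (h : ℂ) (a : ℕ) :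
    Tendsto (fun b : ℕ => ((b : ℂ) + 1) * ((1 - h / ((b : ℂ) + 1)) ^ a - 1)) atTop
      (𝓝 (-(a * h))) := by
  induction a with
  | zero => simp
  | succ a ih =>
    have h1 : (fun b : ℕ => ((b : ℂ) + 1) * ((1 - h / ((b : ℂ) + 1)) ^ (a + 1) - 1)) =
        fun b : ℕ => (((b : ℂ) + 1) * ((1 - h / ((b : ℂ) + 1)) ^ a - 1)) * (1 - h / ((b : ℂ) + 1))
          - h := by
      funext b
      have hb : ((b : ℂ) + 1) ≠ 0 := by exact_mod_cast Nat.succ_ne_zero b
      rw [pow_succ]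
      field_simp
      ring
    rw [h1]
    have h2 : Tendsto (fun b : ℕ => 1 - h / ((b : ℂ) + 1)) atTop (𝓝 (1 - 0)) :=
      (tendsto_succ_inv h).const_sub 1
    have h3 := (ih.mul h2).sub_const h
    have h4 : -((a : ℂ) * h) * (1 - 0) - h = -(((a + 1 : ℕ) : ℂ) * h) := by
      push_cast; ring
    rw [h4] at h3
    exact h3

theorem tendsto_out (x y : ℕ → ℂ) (H C : ℂ)
    (hx : Tendsto (fun b : ℕ => ((b : ℂ) + 1) * x b) atTop (𝓝 (-H)))
    (hy : Tendsto (fun b : ℕ => ((b : ℂ) + 1) * y b) atTop (𝓝 (-C)))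
    (hH : H ≠ 0) (hHC : 12 * C + 16 * H ≠ 0) :
    Tendsto (fun b : ℕ => ((b : ℂ) + 1) * (-(fA ℂ (x b) (y b) / fB ℂ (x b) (y b)))) atTop
      (𝓝 (H * (8 * C + 12 * H) / (12 * C + 16 * H))) := by
  have hz : ∀ (u : ℕ → ℂ) (L : ℂ), Tendsto (fun b : ℕ => ((b : ℂ) + 1) * u b) atTop (𝓝 L) →
      Tendsto u atTop (𝓝 0) := by
    intro u L hu
    have h1 := hu.mul (tendsto_succ_inv 1)
    rw [mul_zero] at h1
    refine h1.congr ?_
    intro b
    have hb : ((b : ℂ) + 1) ≠ 0 := by exact_mod_cast Nat.succ_ne_zero b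
    field_simp
  have hx0 := hz x _ hx
  have hy0 := hz y _ hy
  have hR1 : Tendsto (fun b => 12 * y b + 6 * x b + 6 * x b * y b + x b ^ 2 + x b ^ 2 * y b) atTop
      (𝓝 0) := by
    have := ((((hy0.const_mul 12).add (hx0.const_mul 6)).add ((hx0.const_mul 6).mul hy0)).add
      (hx0.pow 2)).add ((hx0.pow 2).mul hy0)
    simpa using this
  have hR2 : Tendsto (fun b => 12 * y b + 3 * x b + 3 * x b * y b) atTop (𝓝 0) := by
    have := (((hy0.const_mul 12).add (hx0.const_mul 3)).add ((hx0.const_mul 3).mul hy0))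
    simpa using this
  have hnum : Tendsto (fun b : ℕ => 8 * (((b : ℂ) + 1) * y b) + 12 * (((b : ℂ) + 1) * x b) +
      (((b : ℂ) + 1) * x b) * (12 * y b + 6 * x b + 6 * x b * y b + x b ^ 2 + x b ^ 2 * y b)) atTop
      (𝓝 (8 * (-C) + 12 * (-H) + (-H) * 0)) :=
    ((hy.const_mul 8).add (hx.const_mul 12)).add (hx.mul hR1)
  have hden : Tendsto (fun b : ℕ => 12 * (((b : ℂ) + 1) * y b) + 16 * (((b : ℂ) + 1) * x b) +
      (((b : ℂ) + 1) * x b) * (12 * y b + 3 * x b + 3 * x b * y b)) atTop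
      (𝓝 (12 * (-C) + 16 * (-H) + (-H) * 0)) :=
    ((hy.const_mul 12).add (hx.const_mul 16)).add (hx.mul hR2)
  have hne : 12 * (-C) + 16 * (-H) + (-H) * 0 ≠ 0 := by
    intro h0
    apply hHC
    linear_combination -h0
  have hlim := (hx.neg.mul hnum).div hden hne
  have hval : - -H * (8 * (-C) + 12 * (-H) + (-H) * 0) / (12 * (-C) + 16 * (-H) + (-H) * 0) =
      H * (8 * C + 12 * H) / (12 * C + 16 * H) := by
    rw [div_eq_div_iff hne hHC]
    ring
  rw [hval] at hlim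
  refine hlim.congr' ?_
  have hxe : ∀ᶠ b : ℕ in atTop, ((b : ℂ) + 1) * x b ≠ 0 :=
    hx.eventually_ne (neg_ne_zero.2 hH)
  have hde := hden.eventually_ne hne
  filter_upwards [hxe, hde] with b hb1 hb2
  have hb : ((b : ℂ) + 1) ≠ 0 := left_ne_zero_of_mul hb1
  have hxb : x b ≠ 0 := right_ne_zero_of_mul hb1
  simp only [Pi.div_apply, Pi.mul_apply]
  unfold fA fB
  have hb3 : 12 * y b + 16 * x b + x b * (12 * y b + 3 * x b + 3 * x b * y b) ≠ 0 := by
    intro h0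
    apply hb2
    have : 12 * (((b : ℂ) + 1) * y b) + 16 * (((b : ℂ) + 1) * x b) +
      (((b : ℂ) + 1) * x b) * (12 * y b + 3 * x b + 3 * x b * y b) =
      ((b : ℂ) + 1) * (12 * y b + 16 * x b + x b * (12 * y b + 3 * x b + 3 * x b * y b)) := by ring
    rw [this, h0, mul_zero]
  rw [← neg_div, mul_div_assoc', div_eq_div_iff hb2 (mul_ne_zero (pow_ne_zero _ hxb) hb3)]
  ring

end Net

end Pool.Agent.H478R3
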