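import Pool.Agent.H478R3.Net
import Pool.Agent.Helper998.VecMatroid

set_option autoImplicit false

namespace Pool.Agent.H478R3

open Classical Pool.Agent.Helper998.VecMatroid

namespace Net

/-- contraction of the base point -/
noncomputable def con (N : Net) : Net where
  L := LinearMap.ker N.e
  ι := N.ι
  ev := fun i => (N.ev i).comp (LinearMap.ker N.e).subtype
  e := 0

theorem con_sp (N : Net) (S : N.ι → Bool) : N.con.sp false S ↔ N.sp true S := by
  constructor
  · intro h l h1 h2
    have := h (⟨l, h2 rfl⟩ : LinearMap.ker N.e) (fun i hi => h1 i hi) (by simp)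
    exact congrArg Subtype.val this
  · rintro h l h1 -
    apply Subtype.ext
    exact h l.1 (fun i hi => h1 i hi) (fun _ => l.2)

theorem con_W (N : Net) (v : ℂ) : N.con.W false v = N.W true v := by
  unfold W
  apply Finset.sum_congr rfl
  intro S _
  exact if_congr (con_sp N S) rfl rfl

theorem wt_eq {ι : Type} [Fintype ι] (S : ι → Bool) (v : ℂ) :
    wt S v = v ^ (Finset.univ.filter (fun x => S x = true)).card := by
  unfold wt
  rw [Finset.prod_ite, Finset.prod_const, Finset.prod_const_one, mul_one]

theorem spanning_link (N : Net) (hN : N.sp false (fun _ => true)) {n : ℕ} (q : N.ι ≃ Fin n)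
    (X : Set (Fin n)) :
    (vecMatroid (ZMod 2) (fun i : Fin n => (N.ev (q.symm i) : Module.Dual (ZMod 2) N.L))).Spanning X ↔
      ∀ l : N.L, (∀ i ∈ X, N.ev (q.symm i) l = 0) → l = 0 := by
  have h := not_spanning_compl_iff (F := ZMod 2)
    (fun i : Fin n => (N.ev (q.symm i) : Module.Dual (ZMod 2) N.L)) (X := Xᶜ)
  rw [compl_compl] at h
  rw [← not_iff_not, h]
  have hfin : Module.Finite (ZMod 2) N.L := Module.Finite.of_finite
  constructor
  · rintro ⟨f, ⟨i, hi⟩, hf⟩ hcon
    obtain ⟨l, rfl⟩ := (Module.evalEquiv (ZMod 2) N.L).surjective f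
    simp only [Module.evalEquiv_apply, Module.Dual.eval_apply] at hi hf
    have := hcon l (by
      intro j hj
      by_contra hne
      exact hf hne hj)
    rw [this, map_zero] at hi
    exact hi rfl
  · intro hcon
    push Not at hcon
    obtain ⟨l, hl1, hl2⟩ := hcon
    refine ⟨Module.evalEquiv (ZMod 2) N.L l, ?_, ?_⟩
    · by_contra hne
      push Not at hne
      apply hl2
      apply hN l _ (by simp)
      intro x _
      have := hne (q x)
      simpa using this
    · intro j hj hjX
      apply hj
      simpa using hl1 j hjX

theorem exists_spanning (N : Net) (h : ∃ v, N.W false v ≠ 0) : N.sp false (fun _ => true) := by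
  obtain ⟨v, hv⟩ := h
  by_contra hcon
  apply hv
  unfold W
  apply Finset.sum_eq_zero
  intro S _
  rw [if_neg]
  intro hS
  apply hcon
  intro l hl h2
  exact hS l (fun i _ => hl i rfl) h2

/-- subsets as Boolean functions and as finite sets -/
noncomputable def subEquiv {ι : Type} {n : ℕ} (q : ι ≃ Fin n) : (ι → Bool) ≃ Finset (Fin n) where
  toFun := fun T => Finset.univ.filter (fun i => T (q.symm i) = true)
  invFun := fun S x => decide (q x ∈ S)
  left_inv := by
    intro T
    funext x
    simp
  right_inv := by
    intro S
    ext i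
    simp

theorem matroid (N : Net) (hs : ∃ v, N.W false v ≠ 0) {v : ℂ} (hv : 1 + v ≠ 0)
    (h0 : N.W false v = 0) :
    ∃ (n : ℕ) (M : Matroid (Fin n)), M.E = Set.univ ∧
      (∑ S : Finset (Fin n), (if M.Spanning (↑S : Set (Fin n)) then
        (v / (1 + v)) ^ (Finset.card S) * (1 - v / (1 + v)) ^ (n - Finset.card S) else 0)) = 0 := by
  let n := Fintype.card N.ι
  let q : N.ι ≃ Fin n := Fintype.equivFin N.ι
  refine ⟨n, vecMatroid (ZMod 2) (fun i : Fin n => (N.ev (q.symm i) : Module.Dual (ZMod 2) N.L)),
    rfl, ?_⟩
  have key : (∑ S : Finset (Fin n), (if (vecMatroid (ZMod 2)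
      (fun i : Fin n => (N.ev (q.symm i) : Module.Dual (ZMod 2) N.L))).Spanning (↑S : Set (Fin n)) then
        (v / (1 + v)) ^ (Finset.card S) * (1 - v / (1 + v)) ^ (n - Finset.card S) else 0)) =
      (1 / (1 + v)) ^ n * N.W false v := by
    unfold W
    rw [Finset.mul_sum]
    symm
    apply Fintype.sum_equiv (subEquiv q)
    intro T
    have h1 : N.sp false T ↔ (vecMatroid (ZMod 2)
      (fun i : Fin n => (N.ev (q.symm i) : Module.Dual (ZMod 2) N.L))).Spanning
        (↑(subEquiv q T) : Set (Fin n)) := by
      rw [spanning_link N (exists_spanning N hs) q]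
      constructor
      · intro h l hl
        apply h l _ (by simp)
        intro x hx
        have := hl (q x) (by simp [subEquiv, hx])
        simpa using this
      · rintro h l hl -
        apply h l
        intro i hi
        apply hl
        simpa [subEquiv] using hi
    by_cases hT : N.sp false T
    · rw [if_pos hT, if_pos (h1.1 hT), wt_eq]
      have h2 : (Finset.univ.filter (fun x => T x = true)).card = (subEquiv q T).card := by
        apply Finset.card_bij (fun x _ => q x)
        · intro x hx
          simpa [subEquiv] using hx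
        · intro x _ y _ hxy
          exact q.injective hxy
        · intro i hi
          refine ⟨q.symm i, ?_, by simp⟩
          simpa [subEquiv] using hi
      rw [h2]
      have h3 : (subEquiv q T).card ≤ n := by
        have := Finset.card_le_univ (subEquiv q T)
        simpa using this
      have h4 : 1 - v / (1 + v) = 1 / (1 + v) := by
        field_simp
        ring
      rw [h4, div_eq_mul_one_div v, mul_pow, mul_assoc, ← pow_add]
      have h5 : (subEquiv q T).card + (n - (subEquiv q T).card) = n := by omega
      rw [h5]
      ring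
    · rw [if_neg hT, if_neg (fun h => hT (h1.2 h)), mul_zero]
  rw [key, h0, mul_zero]

end Net

end Pool.Agent.H478R3
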