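import Mathlib

set_option autoImplicit false

/-!
Networks: a finite `ZMod 2`-space `L` of cocycles on a finite set `ι` of elements together with a
distinguished functional `e`. A set of elements is spanning when no nonzero cocycle vanishes on it.
-/

namespace Pool.Agent.H478R3

open Classical

/-- A pointed binary matroid given by its space of cocycles. -/
structure Net where
  L : Type
  [i1 : AddCommGroup L]
  [i2 : Module (ZMod 2) L]
  [i3 : Finite L]
  ι : Type
  [i4 : Fintype ι]
  ev : ι → (L →ₗ[ZMod 2] ZMod 2)
  e : L →ₗ[ZMod 2] ZMod 2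

attribute [instance] Net.i1 Net.i2 Net.i3 Net.i4

namespace Net

/-- `sp false S`: the set `S` is spanning; `sp true S`: the set `S` with the base point is spanning. -/
def sp (N : Net) (c : Bool) (S : N.ι → Bool) : Prop :=
  ∀ l : N.L, (∀ i, S i = true → N.ev i l = 0) → (c = true → N.e l = 0) → l = 0

/-- weight of a set of elements -/
noncomputable def wt {ι : Type} [Fintype ι] (S : ι → Bool) (v : ℂ) : ℂ :=
  ∏ i, if S i = true then v else 1

/-- generating function of the (co)spanning sets -/
noncomputable def W (N : Net) (c : Bool) (v : ℂ) : ℂ :=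
  ∑ S : N.ι → Bool, if N.sp c S then wt S v else 0

theorem sp_mono (N : Net) {S : N.ι → Bool} (h : N.sp false S) (c : Bool) : N.sp c S :=
  fun l h1 _ => h l h1 (by simp)

/-- the cocycles of the composition -/
def compL (M : Net) (N : M.ι → Net) : Submodule (ZMod 2) (M.L × (∀ k, (N k).L)) where
  carrier := {x | ∀ k, (N k).e (x.2 k) = M.ev k x.1}
  add_mem' := by
    intro a b ha hb k
    simp only [Set.mem_ofPred_eq] at ha hb
    simp [ha k, hb k]
  zero_mem' := by intro k; simp
  smul_mem' := by
    intro c x hx k
    simp only [Set.mem_ofPred_eq] at hx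
    simp [hx k]

/-- replace each element `k` of `M` by the network `N k` (an iterated 2-sum) -/
noncomputable def comp (M : Net) (N : M.ι → Net) : Net where
  L := compL M N
  ι := Σ k, (N k).ι
  ev := fun p => ((N p.1).ev p.2).comp
    ((LinearMap.proj p.1).comp ((LinearMap.snd (ZMod 2) M.L (∀ k, (N k).L)).comp
      (compL M N).subtype))
  e := M.e.comp ((LinearMap.fst (ZMod 2) M.L (∀ k, (N k).L)).comp (compL M N).subtype)

theorem comp_ev (M : Net) (N : M.ι → Net) (p : Σ k, (N k).ι) (x : compL M N) :
    (comp M N).ev p x = (N p.1).ev p.2 (x.1.2 p.1) := rfl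

theorem comp_e (M : Net) (N : M.ι → Net) (x : compL M N) :
    (comp M N).e x = M.e x.1.1 := rfl

theorem zmod2_cases : ∀ a : ZMod 2, a = 0 ∨ a = 1 := by
  decide

theorem comp_sp (M : Net) (N : M.ι → Net) (c : Bool) (S : (Σ k, (N k).ι) → Bool) :
    (comp M N).sp c S ↔ (∀ k, (N k).sp true (fun i => S ⟨k, i⟩)) ∧
      M.sp c (fun k => decide ((N k).sp false (fun i => S ⟨k, i⟩))) := by
  constructor
  · intro h
    have h1 : ∀ k, (N k).sp true (fun i => S ⟨k, i⟩) := by
      intro k l hl1 hl2
      have hmem : ((0, Function.update 0 k l) : M.L × (∀ k, (N k).L)) ∈ compL M N := by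
        intro j
        by_cases hj : j = k
        · subst hj
          simp [hl2 rfl]
        · simp [Function.update_of_ne hj]
      have := h (⟨_, hmem⟩ : compL M N) ?_ ?_
      · have h2 : Function.update (0 : ∀ k, (N k).L) k l k = 0 :=
          congrArg (fun x : compL M N => x.1.2 k) this
        rwa [Function.update_self] at h2
      · rintro ⟨j, i⟩ hS
        have : (comp M N).ev ⟨j, i⟩ (⟨_, hmem⟩ : compL M N) =
          (N j).ev i (Function.update (0 : ∀ k, (N k).L) k l j) := rfl
        rw [this]
        by_cases hj : j = k
        · subst hj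
          rw [Function.update_self]
          exact hl1 i hS
        · rw [Function.update_of_ne hj]
          simp
      · intro _
        have : (comp M N).e (⟨_, hmem⟩ : compL M N) = M.e 0 := rfl
        rw [this, map_zero]
    refine ⟨h1, ?_⟩
    intro φ hφ hc
    have hex : ∀ k, ∃ l : (N k).L, (N k).e l = M.ev k φ ∧ ∀ i, S ⟨k, i⟩ = true → (N k).ev i l = 0 := by
      intro k
      by_cases hk : (N k).sp false (fun i => S ⟨k, i⟩)
      · refine ⟨0, ?_, ?_⟩
        · rw [map_zero, hφ k (by simpa using hk)]
        · intro i _
          rw [map_zero]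
      · unfold sp at hk
        push Not at hk
        obtain ⟨l, hl1, -, hl3⟩ := hk
        have hel : (N k).e l = 1 := by
          rcases zmod2_cases ((N k).e l) with h0 | h0
          · exact absurd (h1 k l hl1 (fun _ => h0)) hl3
          · exact h0
        rcases zmod2_cases (M.ev k φ) with h0 | h0
        · exact ⟨0, by rw [map_zero, h0], fun i _ => by rw [map_zero]⟩
        · exact ⟨l, by rw [hel, h0], hl1⟩
    choose l hl1 hl2 using hex
    have hmem : ((φ, l) : M.L × (∀ k, (N k).L)) ∈ compL M N := fun k => hl1 k
    have := h (⟨_, hmem⟩ : compL M N) ?_ ?_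
    · exact congrArg (fun x : compL M N => x.1.1) this
    · rintro ⟨j, i⟩ hS
      exact hl2 j i hS
    · intro hc'
      exact hc hc'
  · rintro ⟨h1, h2⟩ x hx hc
    have hφ : x.1.1 = 0 := by
      apply h2
      · intro k hk
        have hk' : (N k).sp false (fun i => S ⟨k, i⟩) := by simpa using hk
        have h3 : x.1.2 k = 0 := hk' _ (fun i hi => hx ⟨k, i⟩ hi) (by simp)
        rw [← x.2 k, h3, map_zero]
      · intro hc'
        exact hc hc'
    have hl : ∀ k, x.1.2 k = 0 := by
      intro k
      apply h1 k
      · intro i hi
        exact hx ⟨k, i⟩ hi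
      · intro _
        rw [x.2 k, hφ, map_zero]
    apply Subtype.ext
    apply Prod.ext
    · exact hφ
    · funext k
      exact hl k

theorem W_sub (N : Net) (v : ℂ) :
    N.W true v - N.W false v =
      ∑ S : N.ι → Bool, if N.sp true S ∧ ¬ N.sp false S then wt S v else 0 := by
  unfold W
  rw [← Finset.sum_sub_distrib]
  apply Finset.sum_congr rfl
  intro S _
  by_cases h1 : N.sp false S
  · have h2 := N.sp_mono h1 true
    simp [h1, h2]
  · simp [h1]

theorem comp_W (M : Net) (N : M.ι → Net) (c : Bool) (v : ℂ) :
    (comp M N).W c v = ∑ T : M.ι → Bool, if M.sp c T then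
      ∏ k, (if T k = true then (N k).W false v else (N k).W true v - (N k).W false v) else 0 := by
  have h1 : (comp M N).W c v =
      ∑ g : (∀ k, ((N k).ι → Bool)),
        if (∀ k, (N k).sp true (g k)) ∧ M.sp c (fun k => decide ((N k).sp false (g k))) then
          ∏ k, wt (g k) v else 0 := by
    unfold W
    let E : ((comp M N).ι → Bool) ≃ (∀ k, ((N k).ι → Bool)) :=
      Equiv.piCurry (fun (k : M.ι) (_ : (N k).ι) => Bool)
    apply Fintype.sum_equiv E
    intro S
    apply if_congr
    · exact comp_sp M N c S
    · unfold wt
      exact Fintype.prod_sigma _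
    · rfl
  rw [h1]
  have h2 : ∀ T : M.ι → Bool, (∏ k, (if T k = true then (N k).W false v
      else (N k).W true v - (N k).W false v)) =
      ∑ g : (∀ k, ((N k).ι → Bool)), ∏ k, (if T k = true then
        (if (N k).sp false (g k) then wt (g k) v else 0)
        else (if (N k).sp true (g k) ∧ ¬ (N k).sp false (g k) then wt (g k) v else 0)) := by
    intro T
    have h3 : ∀ k, (if T k = true then (N k).W false v
      else (N k).W true v - (N k).W false v) = ∑ s : ((N k).ι → Bool), (if T k = true then
        (if (N k).sp false s then wt s v else 0)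
        else (if (N k).sp true s ∧ ¬ (N k).sp false s then wt s v else 0)) := by
      intro k
      by_cases hT : T k = true
      · simp only [hT, if_true]
        rfl
      · simp only [hT]
        exact W_sub (N k) v
    rw [Finset.prod_congr rfl (fun k _ => h3 k), Finset.prod_univ_sum, Fintype.piFinset_univ]
  simp_rw [h2]
  have h4 : ∀ T : M.ι → Bool, (if M.sp c T then ∑ g : (∀ k, ((N k).ι → Bool)), ∏ k, (if T k = true then
        (if (N k).sp false (g k) then wt (g k) v else 0)
        else (if (N k).sp true (g k) ∧ ¬ (N k).sp false (g k) then wt (g k) v else 0)) else 0) =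
      ∑ g : (∀ k, ((N k).ι → Bool)), (if M.sp c T then ∏ k, (if T k = true then
        (if (N k).sp false (g k) then wt (g k) v else 0)
        else (if (N k).sp true (g k) ∧ ¬ (N k).sp false (g k) then wt (g k) v else 0)) else 0) := by
    intro T
    by_cases hT : M.sp c T
    · simp [hT]
    · simp [hT]
  simp_rw [h4]
  rw [Finset.sum_comm]
  apply Finset.sum_congr rfl
  intro g _
  rw [Finset.sum_eq_single (fun k => decide ((N k).sp false (g k)))]
  · by_cases hc : M.sp c (fun k => decide ((N k).sp false (g k)))
    · by_cases hk : ∀ k, (N k).sp true (g k)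
      · rw [if_pos ⟨hk, hc⟩, if_pos hc]
        apply Finset.prod_congr rfl
        intro k _
        by_cases hs : (N k).sp false (g k)
        · simp [hs]
        · simp [hs, hk k]
      · rw [if_neg (fun h => hk h.1), if_pos hc]
        push Not at hk
        obtain ⟨k, hk⟩ := hk
        symm
        apply Finset.prod_eq_zero (Finset.mem_univ k)
        have hs : ¬ (N k).sp false (g k) := fun hs => hk ((N k).sp_mono hs true)
        simp [hs, hk]
    · rw [if_neg (fun h => hc h.2), if_neg hc]
  · intro T _ hT
    by_cases hc : M.sp c T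
    · rw [if_pos hc]
      have : ∃ k, T k ≠ decide ((N k).sp false (g k)) := by
        by_contra hcon
        push Not at hcon
        exact hT (funext hcon)
      obtain ⟨k, hk⟩ := this
      apply Finset.prod_eq_zero (Finset.mem_univ k)
      by_cases hs : (N k).sp false (g k)
      · simp only [hs, decide_true] at hk
        simp [hs, hk]
      · simp only [hs, decide_false, ne_eq, Bool.not_eq_false] at hk
        simp [hs, hk]
    · rw [if_neg hc]
  · intro h
    exact absurd (Finset.mem_univ _) h

end Net

end Pool.Agent.H478R3
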