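import Pool.Agent.H478R3.Blocks
import Pool.Agent.H478R3.CA

set_option autoImplicit false

namespace Pool.Agent.H478R3

open Classical

namespace Net

/-- the part of the generating function where exactly the base point is missing -/
noncomputable def Bf (N : Net) (v : ℂ) : ℂ := N.W true v - N.W false v

/-- on the real interval `(-1, 0)` the effective weight lies in `(-1, 0)` -/
def IsR (N : Net) : Prop := ∀ t : ℝ, -1 < t → t < 0 → ∃ b r : ℝ, b ≠ 0 ∧ -1 < r ∧ r < 0 ∧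
  N.Bf t = b ∧ N.W false t = ((r * b : ℝ) : ℂ)

theorem one_isR : one.IsR := by
  intro t h1 h2
  refine ⟨1, t, one_ne_zero, h1, h2, ?_, ?_⟩
  · unfold Bf
    rw [(one_W t).1, (one_W t).2]
    push_cast
    ring
  · rw [(one_W t).1]
    push_cast
    ring

theorem exists_par' (N1 N2 : Net) (h1 : N1.IsR) (h2 : N2.IsR) : ∃ N : Net, N.IsR ∧
    ∀ v, N.W true v = N1.W true v * N2.W true v ∧ N.Bf v = N1.Bf v * N2.Bf v := by
  obtain ⟨N, hN⟩ := exists_par N1 N2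
  refine ⟨N, ?_, hN⟩
  intro t ht1 ht2
  obtain ⟨b1, r1, hb1, hr1, hr1', hB1, hA1⟩ := h1 t ht1 ht2
  obtain ⟨b2, r2, hb2, hr2, hr2', hB2, hA2⟩ := h2 t ht1 ht2
  have e1 : N1.W true t = ((1 + r1) * b1 : ℝ) := by
    have : N1.W true t = N1.Bf t + N1.W false t := by unfold Bf; ring
    rw [this, hB1, hA1]; push_cast; ring
  have e2 : N2.W true t = ((1 + r2) * b2 : ℝ) := by
    have : N2.W true t = N2.Bf t + N2.W false t := by unfold Bf; ring
    rw [this, hB2, hA2]; push_cast; ring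
  have e3 : N.Bf t = ((b1 * b2 : ℝ) : ℂ) := by
    have := (hN t).2
    unfold Bf at *
    rw [this, hB1, hB2]; push_cast; ring
  refine ⟨b1 * b2, (1 + r1) * (1 + r2) - 1, mul_ne_zero hb1 hb2, ?_, ?_, e3, ?_⟩
  · nlinarith
  · nlinarith
  · have : N.W false t = N.W true t - N.Bf t := by unfold Bf; ring
    rw [this, e3, (hN t).1, e1, e2]
    push_cast; ring

theorem exists_ser' (N1 N2 : Net) (h1 : N1.IsR) (h2 : N2.IsR) : ∃ N : Net, N.IsR ∧
    ∀ v, N.W false v = N1.W false v * N2.W false v ∧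
      N.Bf v = N1.Bf v * N2.W false v + N1.W false v * N2.Bf v := by
  obtain ⟨N, hN⟩ := exists_ser N1 N2
  refine ⟨N, ?_, hN⟩
  intro t ht1 ht2
  obtain ⟨b1, r1, hb1, hr1, hr1', hB1, hA1⟩ := h1 t ht1 ht2
  obtain ⟨b2, r2, hb2, hr2, hr2', hB2, hA2⟩ := h2 t ht1 ht2
  have hne : r1 + r2 ≠ 0 := by linarith
  have hneg : r1 + r2 < 0 := by linarith
  refine ⟨(r1 + r2) * (b1 * b2), r1 * r2 / (r1 + r2), mul_ne_zero hne (mul_ne_zero hb1 hb2), ?_, ?_, ?_, ?_⟩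
  · rw [lt_div_iff_of_neg hneg]
    nlinarith
  · exact div_neg_of_pos_of_neg (mul_pos_of_neg_of_neg hr1' hr2') hneg
  · have := (hN t).2
    unfold Bf at *
    rw [this, hB1, hB2, hA1, hA2]; push_cast; ring
  · rw [(hN t).1, hA1, hA2, ← Complex.ofReal_mul]
    congr 1
    field_simp

/-- numerator for `S_8` -/
def fA (R : Type) [CommRing R] (h c : R) : R :=
  h ^ 3 * (8 * c + 12 * h + h * (12 * c + 6 * h + 6 * h * c + h ^ 2 + h ^ 2 * c))

/-- denominator for `S_8` -/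
def fB (R : Type) [CommRing R] (h c : R) : R :=
  h ^ 2 * (12 * c + 16 * h + h * (12 * c + 3 * h + 3 * h * c))

theorem real_s8 (h c : ℝ) (h1 : -1 < h) (h2 : h < 0) (c1 : -1 < c) (c2 : c < 0) :
    fB ℝ h c < 0 ∧ 0 < fA ℝ h c ∧ fA ℝ h c < - fB ℝ h c := by
  obtain ⟨x, rfl⟩ : ∃ x, h = -x := ⟨-h, by ring⟩
  obtain ⟨w, rfl⟩ : ∃ w, c = -w := ⟨-c, by ring⟩
  have x0 : 0 < x := by linarith
  have x1 : x < 1 := by linarith
  have w0 : 0 < w := by linarith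
  have w1 : w < 1 := by linarith
  have p1 : 0 < x * (1 - w) := mul_pos x0 (by linarith)
  have eA : fA ℝ (-x) (-w) = x ^ 3 * (8 * w + x * (1 - w) * (12 - 6 * x + x ^ 2)) := by
    unfold fA; ring
  have eB : - fB ℝ (-x) (-w) = x ^ 2 * (12 * w + 4 * x + 3 * (x * (1 - w)) * (4 - x)) := by
    unfold fB; ring
  have eD : - fB ℝ (-x) (-w) - fA ℝ (-x) (-w) =
      x ^ 2 * (w * (12 - 8 * x) + 4 * x + x * (1 - w) * (12 - 15 * x + 6 * x ^ 2 - x ^ 3)) := by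
    unfold fB fA; ring
  have q1 : 0 < 12 - 6 * x + x ^ 2 := by nlinarith
  have q2 : 0 < 12 - 15 * x + 6 * x ^ 2 - x ^ 3 := by
    have : 12 - 15 * x + 6 * x ^ 2 - x ^ 3 = 2 + (1 - x) * (10 - 5 * x + x ^ 2) := by ring
    rw [this]
    have : 0 < (1 - x) * (10 - 5 * x + x ^ 2) := mul_pos (by linarith) (by nlinarith)
    linarith
  refine ⟨?_, ?_, ?_⟩
  · have : 0 < - fB ℝ (-x) (-w) := by
      rw [eB]
      apply mul_pos (by positivity)
      have : 0 < 3 * (x * (1 - w)) * (4 - x) := mul_pos (by linarith) (by linarith)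
      linarith
    linarith
  · rw [eA]
    apply mul_pos (by positivity)
    have : 0 < x * (1 - w) * (12 - 6 * x + x ^ 2) := mul_pos p1 q1
    linarith
  · have : 0 < - fB ℝ (-x) (-w) - fA ℝ (-x) (-w) := by
      rw [eD]
      apply mul_pos (by positivity)
      have h3 : 0 < x * (1 - w) * (12 - 15 * x + 6 * x ^ 2 - x ^ 3) := mul_pos p1 q2
      have h4 : 0 < w * (12 - 8 * x) := mul_pos w0 (by linarith)
      linarith
    linarith

theorem exists_s8' (H C : Net) (h1 : H.IsR) (h2 : C.IsR) : ∃ N : Net, N.IsR ∧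
    ∀ v, H.Bf v ≠ 0 → C.Bf v ≠ 0 →
      N.W false v = (H.Bf v) ^ 6 * C.Bf v * fA ℂ (H.W false v / H.Bf v) (C.W false v / C.Bf v) ∧
      N.Bf v = (H.Bf v) ^ 6 * C.Bf v * fB ℂ (H.W false v / H.Bf v) (C.W false v / C.Bf v) := by
  obtain ⟨N, hN⟩ := exists_s8 H C
  have key : ∀ v, H.Bf v ≠ 0 → C.Bf v ≠ 0 →
      N.W false v = (H.Bf v) ^ 6 * C.Bf v * fA ℂ (H.W false v / H.Bf v) (C.W false v / C.Bf v) ∧
      N.Bf v = (H.Bf v) ^ 6 * C.Bf v * fB ℂ (H.W false v / H.Bf v) (C.W false v / C.Bf v) := by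
    intro v hH hC
    have h3 := hN v
    unfold Bf at *
    rw [h3.2, h3.1]
    set b := H.W true v - H.W false v
    set b' := C.W true v - C.W false v
    unfold fA fB
    constructor
    · field_simp
      ring
    · field_simp
      ring
  refine ⟨N, ?_, key⟩
  intro t ht1 ht2
  obtain ⟨b1, r1, hb1, hr1, hr1', hB1, hA1⟩ := h1 t ht1 ht2
  obtain ⟨b2, r2, hb2, hr2, hr2', hB2, hA2⟩ := h2 t ht1 ht2
  obtain ⟨k1, k2⟩ := key t (by rw [hB1]; exact_mod_cast hb1) (by rw [hB2]; exact_mod_cast hb2)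
  have hb1' : (b1 : ℂ) ≠ 0 := by exact_mod_cast hb1
  have hb2' : (b2 : ℂ) ≠ 0 := by exact_mod_cast hb2
  have e1 : H.W false t / H.Bf t = (r1 : ℂ) := by
    rw [hA1, hB1]; push_cast; field_simp
  have e2 : C.W false t / C.Bf t = (r2 : ℂ) := by
    rw [hA2, hB2]; push_cast; field_simp
  rw [e1, e2, hB1, hB2] at k1 k2
  obtain ⟨s1, s2, s3⟩ := real_s8 r1 r2 hr1 hr1' hr2 hr2'
  refine ⟨b1 ^ 6 * b2 * fB ℝ r1 r2, fA ℝ r1 r2 / fB ℝ r1 r2, ?_, ?_, ?_, ?_, ?_⟩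
  · exact mul_ne_zero (mul_ne_zero (pow_ne_zero _ hb1) hb2) s1.ne
  · rw [lt_div_iff_of_neg s1]
    linarith
  · exact div_neg_of_pos_of_neg s2 s1
  · rw [k2]; unfold fB; push_cast; ring
  · rw [k1]
    have : fA ℝ r1 r2 / fB ℝ r1 r2 * (b1 ^ 6 * b2 * fB ℝ r1 r2) = b1 ^ 6 * b2 * fA ℝ r1 r2 := by
      have := s1.ne
      field_simp
    rw [this]
    unfold fA; push_cast; ring

theorem exists_parPow (N : Net) (h : N.IsR) : ∀ k : ℕ, ∃ N' : Net, N'.IsR ∧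
    ∀ v, N'.W true v = (N.W true v) ^ (k + 1) ∧ N'.Bf v = (N.Bf v) ^ (k + 1) := by
  intro k
  induction k with
  | zero => exact ⟨N, h, fun v => by simp⟩
  | succ k ih =>
    obtain ⟨N1, hN1, hv⟩ := ih
    obtain ⟨N2, hN2, hv2⟩ := exists_par' N1 N hN1 h
    refine ⟨N2, hN2, fun v => ?_⟩
    rw [(hv2 v).1, (hv2 v).2, (hv v).1, (hv v).2, pow_succ, pow_succ (N.Bf v)]
    exact ⟨rfl, rfl⟩

theorem exists_serPow (N : Net) (h : N.IsR) : ∀ k : ℕ, ∃ N' : Net, N'.IsR ∧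
    ∀ v, N'.W false v = (N.W false v) ^ (k + 1) ∧
      N'.Bf v = (k + 1 : ℕ) * (N.Bf v * (N.W false v) ^ k) := by
  intro k
  induction k with
  | zero => exact ⟨N, h, fun v => by simp⟩
  | succ k ih =>
    obtain ⟨N1, hN1, hv⟩ := ih
    obtain ⟨N2, hN2, hv2⟩ := exists_ser' N1 N hN1 h
    refine ⟨N2, hN2, fun v => ?_⟩
    rw [(hv2 v).1, (hv2 v).2, (hv v).1, (hv v).2]
    constructor
    · ring
    · push_cast; ring

end Net

end Pool.Agent.H478R3
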